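import Pool.Agent.H41.HKB.Targets

/-!
Row DCT of the board hkb_modules (`MP_bd932b_co`): few deep partners.
-/

set_option autoImplicit false

namespace Pool.Agent.H13.HKB

open Finset Pool.Agent.H41.HKB Pool.Agent.H42.BD

open scoped Classical in
theorem pf_DCT (hL2 : T_L2) : T_DCT := by
  intro k M ε hk hM hε V _ G hG y
  have h1 := hL2 k M hk hM V G hG y
  have hn : (0 : ℝ) < Fintype.card V := by
    exact_mod_cast Fintype.card_pos_iff.2 ⟨y⟩
  have hsn : sn V ^ 2 = Fintype.card V := Real.sq_sqrt hn.le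
  have h2 : ∀ v ∈ univ.filter (fun v => Dp ε G y v),
      ε ^ 2 * Fintype.card V ≤ (cd G y v : ℝ) ^ 2 := by
    intro v hv
    have h3 := (Finset.mem_filter.1 hv).2.2
    have h4 : 0 ≤ ε * sn V := mul_nonneg hε.le (Real.sqrt_nonneg _)
    rw [← hsn, ← mul_pow]
    exact pow_le_pow_left₀ h4 h3 2
  have h3 : ((univ.filter (fun v => Dp ε G y v)).card : ℝ) * (ε ^ 2 * Fintype.card V) ≤
      C2 k M * Fintype.card V := by
    refine le_trans ?_ h1
    rw [← nsmul_eq_mul, ← Finset.sum_const]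
    refine (Finset.sum_le_sum h2).trans ?_
    refine Finset.sum_le_sum_of_subset_of_nonneg ?_ fun v _ _ => sq_nonneg _
    intro v hv
    exact Finset.mem_erase.2 ⟨Ne.symm (Finset.mem_filter.1 hv).2.1, Finset.mem_univ v⟩
  rw [le_div_iff₀ (by positivity)]
  rw [← mul_assoc] at h3
  exact le_of_mul_le_mul_right h3 hn

end Pool.Agent.H13.HKB
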